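import Mathlib

/-!
# Chords of the unit circle

The points `P t = (1 + i t) / (1 - i t)` of the unit circle occur in the order of `t`, and two
chords with four different endpoints meet exactly when their endpoints alternate.
-/

set_option autoImplicit false

noncomputable section

namespace Q173.CG

/-- The point of the unit circle with parameter `t`. -/
def pt (t : ℝ) : ℂ := ⟨(1 - t ^ 2) / (1 + t ^ 2), 2 * t / (1 + t ^ 2)⟩

theorem den_pos (t : ℝ) : 0 < 1 + t ^ 2 := by positivity

theorem pt_sq (t : ℝ) : (pt t).re ^ 2 + (pt t).im ^ 2 = 1 := by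
  have := den_pos t
  unfold pt
  field_simp
  ring

theorem norm_pt (t : ℝ) : ‖pt t‖ = 1 := by
  rw [Complex.norm_eq_sqrt_sq_add_sq, pt_sq, Real.sqrt_one]

theorem pt_injective : Function.Injective pt := by
  intro s t h
  have h1 : ∀ t : ℝ, (pt t).im = t * (1 + (pt t).re) := by
    intro t
    have := den_pos t
    unfold pt
    field_simp
    ring
  have h2 : ∀ t : ℝ, 0 < 1 + (pt t).re := by
    intro t
    have := den_pos t
    unfold pt
    have : 1 + (1 - t ^ 2) / (1 + t ^ 2) = 2 / (1 + t ^ 2) := by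
      field_simp
      ring
    rw [this]
    positivity
  have h3 := h1 s
  rw [h, h1 t] at h3
  exact (mul_right_cancel₀ (h2 t).ne' h3).symm

/-- The point of the unit circle with parameter `t`, as an element of `Circle`. -/
def cpt (t : ℝ) : Circle := ⟨pt t, mem_sphere_zero_iff_norm.2 (norm_pt t)⟩

theorem coe_cpt (t : ℝ) : (cpt t : ℂ) = pt t := rfl

theorem cpt_injective : Function.Injective cpt := by
  intro s t h
  apply pt_injective
  rw [← coe_cpt, ← coe_cpt, h]

/-- The orientation of three points. -/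
def ori (x y z : ℂ) : ℝ := (y.re - x.re) * (z.im - x.im) - (y.im - x.im) * (z.re - x.re)

theorem ori_pt (a b c : ℝ) : ori (pt a) (pt b) (pt c) =
    4 * (b - a) * (c - a) * (c - b) / ((1 + a ^ 2) * (1 + b ^ 2) * (1 + c ^ 2)) := by
  have ha := den_pos a
  have hb := den_pos b
  have hc := den_pos c
  unfold ori pt
  field_simp
  ring

theorem ori_affine (x y z w : ℂ) (s : ℝ) :
    ori x y ((1 - s : ℝ) • z + s • w) = (1 - s) * ori x y z + s * ori x y w := by
  unfold ori
  simp only [Complex.add_re, Complex.add_im, Complex.real_smul, Complex.mul_re, Complex.mul_im,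
    Complex.ofReal_re, Complex.ofReal_im]
  ring

theorem ori_self_left (x y : ℂ) : ori x y x = 0 := by
  unfold ori
  ring

theorem ori_self_right (x y : ℂ) : ori x y y = 0 := by
  unfold ori
  ring

theorem mem_seg_iff (x y z : ℂ) : z ∈ segment ℝ x y ↔
    ∃ s : ℝ, 0 ≤ s ∧ s ≤ 1 ∧ z = (1 - s : ℝ) • x + s • y := by
  constructor
  · rintro ⟨a, b, ha, hb, hab, rfl⟩
    exact ⟨b, hb, by linarith, by rw [← hab]; simp⟩
  · rintro ⟨s, h0, h1, rfl⟩
    exact ⟨1 - s, s, by linarith, h0, by ring, rfl⟩

/-- The sign condition. -/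
theorem between_of_inter {a b c d : ℝ} (hab : a < b) (hca : c ≠ a) (hcb : c ≠ b) (hda : d ≠ a)
    (hdb : d ≠ b) (h : (segment ℝ (pt a) (pt b) ∩ segment ℝ (pt c) (pt d)).Nonempty) :
    ((c - a) * (c - b)) * ((d - a) * (d - b)) < 0 := by
  obtain ⟨z, hz1, hz2⟩ := h
  obtain ⟨s, hs0, hs1, hs⟩ := (mem_seg_iff _ _ _).1 hz1
  obtain ⟨t, ht0, ht1, ht⟩ := (mem_seg_iff _ _ _).1 hz2
  have h1 : ori (pt a) (pt b) z = 0 := by
    rw [hs, ori_affine, ori_self_left, ori_self_right]
    ring
  rw [ht, ori_affine, ori_pt, ori_pt] at h1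
  have ha := den_pos a
  have hb := den_pos b
  have hc := den_pos c
  have hd := den_pos d
  have h2 : (1 - t) * ((c - a) * (c - b)) * (1 + d ^ 2) + t * ((d - a) * (d - b)) * (1 + c ^ 2)
      = 0 := by
    have h3 : 4 * (b - a) ≠ 0 := by
      have : 0 < b - a := by linarith
      positivity
    field_simp at h1
    have h4 : 4 * (b - a) * ((1 - t) * ((c - a) * (c - b)) * (1 + d ^ 2) +
        t * ((d - a) * (d - b)) * (1 + c ^ 2)) = 0 := by
      linear_combination h1
    exact (mul_eq_zero.1 h4).resolve_left h3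
  have hp : (c - a) * (c - b) ≠ 0 := mul_ne_zero (sub_ne_zero.2 hca) (sub_ne_zero.2 hcb)
  have hq : (d - a) * (d - b) ≠ 0 := mul_ne_zero (sub_ne_zero.2 hda) (sub_ne_zero.2 hdb)
  set p := (c - a) * (c - b) with hpdef
  set q := (d - a) * (d - b) with hqdef
  by_contra hcon
  have hpq : 0 < p * q := lt_of_le_of_ne (not_lt.1 hcon) (mul_ne_zero hp hq).symm
  rcases mul_pos_iff.1 hpq with ⟨h5, h6⟩ | ⟨h5, h6⟩
  · have h7 : 0 ≤ (1 - t) * p * (1 + d ^ 2) := by
      have : 0 ≤ 1 - t := by linarith
      positivity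
    have h8 : 0 ≤ t * q * (1 + c ^ 2) := by positivity
    have h9 : (1 - t) * p * (1 + d ^ 2) = 0 := by linarith
    have h10 : t * q * (1 + c ^ 2) = 0 := by linarith
    have h11 : 1 - t = 0 := by
      have h12 := (mul_eq_zero.1 h9).resolve_right hd.ne'
      exact (mul_eq_zero.1 h12).resolve_right hp
    have h13 : t = 0 := by
      have h12 := (mul_eq_zero.1 h10).resolve_right hc.ne'
      exact (mul_eq_zero.1 h12).resolve_right hq
    linarith
  · have h7 : 0 ≤ (1 - t) * (-p) * (1 + d ^ 2) := by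
      have : 0 ≤ 1 - t := by linarith
      have : 0 ≤ - p := by linarith
      positivity
    have h8 : 0 ≤ t * (-q) * (1 + c ^ 2) := by
      have : 0 ≤ - q := by linarith
      positivity
    have h9 : (1 - t) * p * (1 + d ^ 2) = 0 := by linarith
    have h10 : t * q * (1 + c ^ 2) = 0 := by linarith
    have h11 : 1 - t = 0 := by
      have h12 := (mul_eq_zero.1 h9).resolve_right hd.ne'
      exact (mul_eq_zero.1 h12).resolve_right hp
    have h13 : t = 0 := by
      have h12 := (mul_eq_zero.1 h10).resolve_right hc.ne'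
      exact (mul_eq_zero.1 h12).resolve_right hq
    linarith

/-- A point of the closed disc on the line through two points of the circle is on the chord. -/
theorem mem_seg_of_ori {A B z : ℂ} (hA2 : A.re ^ 2 + A.im ^ 2 = 1) (hB2 : B.re ^ 2 + B.im ^ 2 = 1)
    (hAB : A ≠ B) (hz0 : ori A B z = 0) (hzn : z.re ^ 2 + z.im ^ 2 ≤ 1) :
    z ∈ segment ℝ A B := by
  rw [mem_seg_iff]
  have hN : 0 < (B.re - A.re) ^ 2 + (B.im - A.im) ^ 2 := by
    rcases eq_or_ne B.re A.re with h1 | h1
    · have h2 : B.im - A.im ≠ 0 := by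
        intro h2
        exact hAB (Complex.ext h1.symm (by linarith))
      positivity
    · have h2 : B.re - A.re ≠ 0 := sub_ne_zero.2 h1
      positivity
  obtain ⟨N, hNdef⟩ : ∃ N, N = (B.re - A.re) ^ 2 + (B.im - A.im) ^ 2 := ⟨_, rfl⟩
  rw [← hNdef] at hN
  obtain ⟨s, hsdef⟩ : ∃ s, s = ((z.re - A.re) * (B.re - A.re) + (z.im - A.im) * (B.im - A.im)) / N :=
    ⟨_, rfl⟩
  have hsN : s * N = (z.re - A.re) * (B.re - A.re) + (z.im - A.im) * (B.im - A.im) := by
    rw [hsdef]
    exact div_mul_cancel₀ _ hN.ne'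
  have hz0' : (B.re - A.re) * (z.im - A.im) - (B.im - A.im) * (z.re - A.re) = 0 := hz0
  have hre : z.re - A.re = s * (B.re - A.re) := by
    have : N * (z.re - A.re) = N * (s * (B.re - A.re)) := by
      rw [show N * (s * (B.re - A.re)) = (s * N) * (B.re - A.re) by ring, hsN, hNdef]
      linear_combination (-(B.im - A.im)) * hz0'
    exact mul_left_cancel₀ hN.ne' this
  have him : z.im - A.im = s * (B.im - A.im) := by
    have : N * (z.im - A.im) = N * (s * (B.im - A.im)) := by
      rw [show N * (s * (B.im - A.im)) = (s * N) * (B.im - A.im) by ring, hsN, hNdef]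
      linear_combination (B.re - A.re) * hz0'
    exact mul_left_cancel₀ hN.ne' this
  have e1 : z.re = A.re + s * (B.re - A.re) := by linarith
  have e2 : z.im = A.im + s * (B.im - A.im) := by linarith
  have hs : s * (s - 1) * N ≤ 0 := by
    have h1 : z.re ^ 2 + z.im ^ 2 = 1 + s * (s - 1) * N := by
      rw [e1, e2, hNdef]
      linear_combination (1 - s) * hA2 + s * hB2
    linarith
  have hs2 : s * (s - 1) ≤ 0 := by
    by_contra hcon
    have := mul_pos (not_le.1 hcon) hN
    linarith
  refine ⟨s, ?_, ?_, ?_⟩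
  · by_contra hcon
    have h1 : s < 0 := not_le.1 hcon
    have h2 : 0 < s * (s - 1) := mul_pos_of_neg_of_neg h1 (by linarith)
    linarith
  · by_contra hcon
    have h1 : 1 < s := not_le.1 hcon
    have h2 : 0 < s * (s - 1) := mul_pos (by linarith) (by linarith)
    linarith
  · apply Complex.ext
    · simp only [Complex.add_re, Complex.real_smul, Complex.mul_re, Complex.ofReal_re,
        Complex.ofReal_im]
      rw [e1]
      ring
    · simp only [Complex.add_im, Complex.real_smul, Complex.mul_im, Complex.ofReal_re,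
        Complex.ofReal_im]
      rw [e2]
      ring

/-- A segment between two points of the circle on different sides of a line meets the line in a
point of the disc. -/
theorem exists_cross {A B C D : ℂ} (hC2 : C.re ^ 2 + C.im ^ 2 = 1)
    (hD2 : D.re ^ 2 + D.im ^ 2 = 1) (h : ori A B C * ori A B D < 0) :
    ∃ z ∈ segment ℝ C D, ori A B z = 0 ∧ z.re ^ 2 + z.im ^ 2 ≤ 1 := by
  obtain ⟨p, hp⟩ : ∃ p, p = ori A B C := ⟨_, rfl⟩
  obtain ⟨q, hq⟩ : ∃ q, q = ori A B D := ⟨_, rfl⟩
  rw [← hp, ← hq] at h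
  obtain ⟨t, ht0, ht1, ht⟩ : ∃ t : ℝ, 0 ≤ t ∧ t ≤ 1 ∧ (1 - t) * p + t * q = 0 := by
    rcases mul_neg_iff.1 h with ⟨h1, h2⟩ | ⟨h1, h2⟩
    · have h3 : 0 < p - q := by linarith
      refine ⟨p / (p - q), by positivity, ?_, ?_⟩
      · rw [div_le_one h3]
        linarith
      · field_simp
        ring
    · have h3 : 0 < q - p := by linarith
      refine ⟨-p / (q - p), ?_, ?_, ?_⟩
      · exact div_nonneg (by linarith) h3.le
      · rw [div_le_one h3]
        linarith
      · field_simp
        ring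
  refine ⟨(1 - t : ℝ) • C + t • D, (mem_seg_iff _ _ _).2 ⟨t, ht0, ht1, rfl⟩, ?_, ?_⟩
  · rw [ori_affine, ← hp, ← hq, ht]
  · have h3 : ((1 - t : ℝ) • C + t • D).re = (1 - t) * C.re + t * D.re := by
      simp
    have h4 : ((1 - t : ℝ) • C + t • D).im = (1 - t) * C.im + t * D.im := by
      simp
    have h5 : ((1 - t) * C.re + t * D.re) ^ 2 + ((1 - t) * C.im + t * D.im) ^ 2
        = 1 - (1 - t) * t * ((C.re - D.re) ^ 2 + (C.im - D.im) ^ 2) := by
      linear_combination (1 - t) * hC2 + t * hD2
    rw [h3, h4, h5]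
    have : 0 ≤ (1 - t) * t * ((C.re - D.re) ^ 2 + (C.im - D.im) ^ 2) := by
      have : 0 ≤ 1 - t := by linarith
      positivity
    linarith

/-- Chords with alternating endpoints meet. -/
theorem inter_of_between {a b c d : ℝ} (hab : a < b)
    (h : ((c - a) * (c - b)) * ((d - a) * (d - b)) < 0) :
    (segment ℝ (pt a) (pt b) ∩ segment ℝ (pt c) (pt d)).Nonempty := by
  have hpq : ori (pt a) (pt b) (pt c) * ori (pt a) (pt b) (pt d) < 0 := by
    have ha := den_pos a
    have hb := den_pos b
    have hc := den_pos c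
    have hd := den_pos d
    have : ori (pt a) (pt b) (pt c) * ori (pt a) (pt b) (pt d) =
        16 * (b - a) ^ 2 * (((c - a) * (c - b)) * ((d - a) * (d - b))) /
        ((1 + a ^ 2) ^ 2 * (1 + b ^ 2) ^ 2 * ((1 + c ^ 2) * (1 + d ^ 2))) := by
      rw [ori_pt, ori_pt]
      field_simp
      ring
    rw [this]
    have h3 : 0 < b - a := by linarith
    apply div_neg_of_neg_of_pos _ (by positivity)
    exact mul_neg_of_pos_of_neg (by positivity) h
  obtain ⟨z, hz1, hz2, hz3⟩ := exists_cross (pt_sq c) (pt_sq d) hpq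
  exact ⟨z, mem_seg_of_ori (pt_sq a) (pt_sq b) (fun h' => hab.ne (pt_injective h')) hz2 hz3, hz1⟩

/-- Two chords with different endpoints meet if and only if the endpoints alternate. -/
theorem inter_iff {a b c d : ℝ} (hab : a < b) (hcd : c < d) (hca : c ≠ a) (hcb : c ≠ b)
    (hda : d ≠ a) (hdb : d ≠ b) :
    (segment ℝ (pt a) (pt b) ∩ segment ℝ (pt c) (pt d)).Nonempty ↔
      (a < c ∧ c < b ∧ b < d) ∨ (c < a ∧ a < d ∧ d < b) := by
  constructor
  · intro h
    have h1 := between_of_inter hab hca hcb hda hdb h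
    rcases lt_or_gt_of_ne hca with h2 | h2 <;> rcases lt_or_gt_of_ne hcb with h3 | h3 <;>
      rcases lt_or_gt_of_ne hda with h4 | h4 <;> rcases lt_or_gt_of_ne hdb with h5 | h5
    all_goals first
      | exact Or.inl ⟨h2, h3, h5⟩
      | exact Or.inr ⟨h2, h4, h5⟩
      | (exfalso; linarith)
      | (exfalso
         have e1 := mul_pos (mul_pos (sub_pos.2 h2) (sub_pos.2 h3))
           (mul_pos (sub_pos.2 h4) (sub_pos.2 h5))
         nlinarith)
  · rintro (⟨h1, h2, h3⟩ | ⟨h1, h2, h3⟩)
    · apply inter_of_between hab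
      have h4 : d - a > 0 := by linarith
      have e1 : (c - a) * (c - b) < 0 := mul_neg_of_pos_of_neg (by linarith) (by linarith)
      have e2 : 0 < (d - a) * (d - b) := mul_pos (by linarith) (by linarith)
      exact mul_neg_of_neg_of_pos e1 e2
    · apply inter_of_between hab
      have e1 : 0 < (c - a) * (c - b) := mul_pos_of_neg_of_neg (by linarith) (by linarith)
      have e2 : (d - a) * (d - b) < 0 := mul_neg_of_pos_of_neg (by linarith) (by linarith)
      exact mul_neg_of_pos_of_neg e1 e2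

end Q173.CG
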