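import Mathlib

/-!
# Circle graphs, independence complexes and wedges of spheres
-/

set_option autoImplicit false

open Metric

noncomputable section

namespace Q173.CG

/-- A circle graph: the vertices are chords of the unit circle of the complex plane with pairwise
distinct endpoints, and two different vertices are adjacent exactly when the two chords cross. -/
def IsCircleGraph {V : Type} (G : SimpleGraph V) : Prop :=
  ∃ a b : V → Circle, Function.Injective (Sum.elim a b : V ⊕ V → Circle) ∧
    ∀ v w, G.Adj v w ↔
      v ≠ w ∧ (segment ℝ (a v : ℂ) (b v : ℂ) ∩ segment ℝ (a w : ℂ) (b w : ℂ)).Nonempty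

/-- The geometric realization of the independence complex of a finite graph `G`: the points of the
standard simplex (in barycentric coordinates indexed by the vertices) whose support is an
independent set of `G`. -/
def IndepComplex {V : Type} [Fintype V] (G : SimpleGraph V) : Type :=
  {x : V → ℝ // x ∈ stdSimplex ℝ V ∧ G.IsIndepSet {v | x v ≠ 0}}

instance {V : Type} [Fintype V] (G : SimpleGraph V) : TopologicalSpace (IndepComplex G) :=
  instTopologicalSpaceSubtype

/-- The unit sphere of dimension `d`. -/
abbrev Sph (d : ℕ) : Type := sphere (0 : EuclideanSpace ℝ (Fin (d + 1))) 1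

/-- The base point of the sphere. -/
def basePt (d : ℕ) : Sph d := ⟨EuclideanSpace.single 0 1, by simp⟩

/-- The wedge (one-point union at the base points) of the spheres of dimensions
`d 0, ..., d (k - 1)`, as the subspace of their product where all coordinates, except possibly one,
are the base points. For `k = 0` it is a point. -/
def Wedge {k : ℕ} (d : Fin k → ℕ) : Type :=
  {x : ∀ i, Sph (d i) // ∀ i j, i ≠ j → x i = basePt (d i) ∨ x j = basePt (d j)}

instance {k : ℕ} (d : Fin k → ℕ) : TopologicalSpace (Wedge d) := instTopologicalSpaceSubtype

end Q173.CG
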