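import Mathlib
import Pool.Agent.Helper206.BoxS.SphereSC
import Pool.Agent.Q173.CG.Defs

/-!
# Splitting pairs of maps to the circle

For two maps `φ ψ` from a space `Y` to the circle `T = ℝ/ℤ` the property `Splits φ ψ` says that the
cup product of the two classes of degree one vanishes. It is invariant under homotopy
equivalences and holds for all pairs of maps on a wedge of spheres.
-/

set_option autoImplicit false

open Topology unitInterval Set Metric

noncomputable section

namespace Q173.CG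

/-- The circle `ℝ/ℤ`. -/
abbrev T := AddCircle (1 : ℝ)

lemma coe_int (n : ℤ) : (((n : ℤ) : ℝ) : T) = 0 := by
  rw [AddCircle.coe_eq_zero_iff]
  exact ⟨n, by simp⟩

lemma coe_eq_coe {a b : ℝ} : (a : T) = (b : T) ↔ ∃ n : ℤ, a = b + n := by
  rw [← sub_eq_zero, ← AddCircle.coe_sub, AddCircle.coe_eq_zero_iff]
  constructor
  · rintro ⟨n, hn⟩
    refine ⟨n, ?_⟩
    rw [zsmul_eq_mul, mul_one] at hn
    linarith
  · rintro ⟨n, hn⟩
    refine ⟨n, ?_⟩
    rw [zsmul_eq_mul, mul_one]
    linarith

lemma exists_rep (x : T) : ∃ a : ℝ, (a : T) = x := QuotientAddGroup.mk_surjective x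

variable {X Y Z : Type*} [TopologicalSpace X] [TopologicalSpace Y] [TopologicalSpace Z]

/-- The cup product of the classes of `φ` and `ψ` vanishes. -/
def Splits (φ ψ : C(Y, T)) : Prop :=
  ∃ u : Y × ℝ → T, ContinuousOn u {p | φ p.1 = (p.2 : T)} ∧
    ∀ (y : Y) (s : ℝ), φ y = (s : T) → u (y, s + 1) = u (y, s) + ψ y

theorem Splits.pullback {φ ψ : C(Y, T)} (h : Splits φ ψ) (f : C(Z, Y)) :
    Splits (φ.comp f) (ψ.comp f) := by
  obtain ⟨u, hu, hu1⟩ := h
  refine ⟨fun p => u (f p.1, p.2), ?_, fun y s hs => hu1 (f y) s hs⟩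
  refine hu.comp (Continuous.continuousOn (by fun_prop)) ?_
  intro p hp
  exact hp

theorem Splits.change {φ ψ φ' ψ' : C(Y, T)} (h : Splits φ' ψ') (δ ε : C(Y, ℝ))
    (hφ : ∀ y, φ' y = φ y + (δ y : T)) (hψ : ∀ y, ψ' y = ψ y + (ε y : T)) : Splits φ ψ := by
  obtain ⟨u, hu, hu1⟩ := h
  refine ⟨fun p => u (p.1, p.2 + δ p.1) - ((p.2 * ε p.1 : ℝ) : T), ?_, fun y s hs => ?_⟩
  · refine ContinuousOn.sub ?_ ?_
    · refine hu.comp (Continuous.continuousOn (by fun_prop)) ?_
      intro p hp
      change φ' p.1 = ((p.2 + δ p.1 : ℝ) : T)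
      rw [hφ, AddCircle.coe_add, ← show φ p.1 = (p.2 : T) from hp]
    · exact ((AddCircle.continuous_mk' 1).comp (by fun_prop)).continuousOn
  · have h1 : φ' y = ((s + δ y : ℝ) : T) := by rw [hφ, AddCircle.coe_add, hs]
    have h2 := hu1 y (s + δ y) h1
    simp only
    rw [show s + 1 + δ y = s + δ y + 1 by ring, h2, hψ, show (s + 1) * ε y = s * ε y + ε y by ring,
      AddCircle.coe_add]
    abel

theorem Splits.congr {φ ψ φ' ψ' : C(Y, T)} (h : Splits φ' ψ')
    (hφ : ∀ y, φ' y = φ y) (hψ : ∀ y, ψ' y = ψ y) : Splits φ ψ :=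
  h.change (ContinuousMap.const _ 0) (ContinuousMap.const _ 0) (by simpa using hφ)
    (by simpa using hψ)

/-- Homotopic maps to the circle differ by a real function. -/
theorem exists_real_of_homotopic {f₀ f₁ : C(Y, T)} (h : f₀.Homotopic f₁) :
    ∃ δ : C(Y, ℝ), ∀ y, f₁ y = f₀ y + (δ y : T) := by
  obtain ⟨F⟩ := h
  let cov : IsCoveringMap ((↑) : ℝ → AddCircle (1 : ℝ)) := AddCircle.isCoveringMap_coe 1
  let K : C(I × Y, T) := ⟨fun p => F p - f₀ p.2, by fun_prop⟩
  have K0 : ∀ y, K (0, y) = ((ContinuousMap.const Y (0 : ℝ) y : ℝ) : T) := by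
    intro y
    simp [K]
  let L := cov.liftHomotopy K (ContinuousMap.const Y 0) K0
  refine ⟨⟨fun y => L (1, y), by fun_prop⟩, fun y => ?_⟩
  have h1 : ((L (1, y) : ℝ) : T) = K (1, y) := congr_fun (cov.liftHomotopy_lifts K _ K0) (1, y)
  change f₁ y = f₀ y + ((L (1, y) : ℝ) : T)
  rw [h1]
  simp [K]

theorem exists_lift_of_nullhomotopic {f : C(Y, T)} {c : T}
    (h : (ContinuousMap.const Y c).Homotopic f) : ∃ δ : C(Y, ℝ), ∀ y, f y = (δ y : T) := by
  obtain ⟨δ, hδ⟩ := exists_real_of_homotopic h
  obtain ⟨a, rfl⟩ := exists_rep c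
  refine ⟨⟨fun y => a + δ y, by fun_prop⟩, fun y => ?_⟩
  rw [hδ]
  simp

/-- The property that all pairs split is invariant under homotopy equivalence. -/
theorem splits_of_homotopyEquiv (e : ContinuousMap.HomotopyEquiv X Y)
    (h : ∀ φ ψ : C(Y, T), Splits φ ψ) (φ ψ : C(X, T)) : Splits φ ψ := by
  have h1 := (h (φ.comp e.invFun) (ψ.comp e.invFun)).pullback e.toFun
  obtain ⟨δ, hδ⟩ := exists_real_of_homotopic
    (ContinuousMap.Homotopic.comp (ContinuousMap.Homotopic.refl φ) e.left_inv.symm)
  obtain ⟨ε, hε⟩ := exists_real_of_homotopic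
    (ContinuousMap.Homotopic.comp (ContinuousMap.Homotopic.refl ψ) e.left_inv.symm)
  exact h1.change δ ε hδ hε

/-- If `φ` lifts to the reals then the pair splits. -/
theorem splits_of_lift {φ : C(Y, T)} (ψ : C(Y, T)) (f : C(Y, ℝ)) (hf : ∀ y, φ y = (f y : T)) :
    Splits φ ψ := by
  have key : Splits (ContinuousMap.const Y (0 : T)) ψ := by
    refine ⟨fun p => (round p.2) • ψ p.1, ?_, fun y s hs => ?_⟩
    · intro p hp
      have hp' : (0 : T) = (p.2 : T) := hp
      obtain ⟨n, hn⟩ : ∃ n : ℤ, p.2 = n := by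
        obtain ⟨n, hn⟩ := (coe_eq_coe (a := p.2) (b := 0)).1 (by rw [← hp']; simp)
        exact ⟨n, by linarith⟩
      have h1 : ContinuousWithinAt (fun q : Y × ℝ => n • ψ q.1)
          {p | (ContinuousMap.const Y (0 : T)) p.1 = (p.2 : T)} p := by
        apply Continuous.continuousWithinAt
        fun_prop
      refine h1.congr_of_eventuallyEq ?_ ?_
      · have h2 : ∀ᶠ q : Y × ℝ in 𝓝 p, q.2 ∈ Ioo (n - 1 / 2 : ℝ) (n + 1 / 2) := by
          refine (continuous_snd.tendsto p).eventually (Ioo_mem_nhds ?_ ?_) <;> rw [hn] <;> linarith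
        filter_upwards [nhdsWithin_le_nhds h2] with q hq
        have : round q.2 = n := by
          rw [round_eq, Int.floor_eq_iff]
          constructor <;> linarith [hq.1, hq.2]
        rw [this]
      · rw [hn, round_intCast]
    · change round (s + 1) • ψ y = round s • ψ y + ψ y
      rw [round_add_one, add_smul, one_smul]
  refine key.change ⟨fun y => - f y, by fun_prop⟩ (ContinuousMap.const _ 0) (fun y => ?_)
    (fun y => ?_)
  · simp [hf]
  · simp

/-- A continuous function with integer values on a connected space is constant. -/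
theorem const_of_int [PreconnectedSpace Y] {D : Y → ℝ} (hD : Continuous D)
    (h : ∀ a, ∃ n : ℤ, D a = n) (a b : Y) : D a = D b := by
  choose n hn using h
  have hc : Continuous n := by
    rw [Int.isClosedEmbedding_coe_real.isEmbedding.continuous_iff]
    convert hD using 1
    ext a
    exact (hn a).symm
  rw [hn, hn, PreconnectedSpace.constant ‹_› hc]

theorem exists_degree (φ : C(T, T)) : ∃ (p : ℤ) (δ : C(T, ℝ)), ∀ y, φ y = p • y + (δ y : T) := by
  let q : C(ℝ, T) := ⟨fun x => (x : T), AddCircle.continuous_mk' 1⟩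
  obtain ⟨a, ha⟩ := exists_rep (φ.comp q 0)
  obtain ⟨f, ⟨-, hf⟩, -⟩ := (AddCircle.isCoveringMap_coe (1 : ℝ)).existsUnique_continuousMap_lifts
    (φ.comp q) 0 a ha
  have hf' : ∀ x : ℝ, ((f x : ℝ) : T) = φ (x : T) := fun x => congr_fun hf x
  have hper : ∀ x : ℝ, ((x + 1 : ℝ) : T) = (x : T) := by
    intro x
    rw [AddCircle.coe_add, AddCircle.coe_period, add_zero]
  have hD : ∀ x : ℝ, ∃ n : ℤ, f (x + 1) - f x = n := by
    intro x
    obtain ⟨n, hn⟩ := (coe_eq_coe (a := f (x + 1)) (b := f x)).1 (by rw [hf', hf', hper])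
    exact ⟨n, by linarith⟩
  obtain ⟨p, hp⟩ := hD 0
  have hDc : ∀ x : ℝ, f (x + 1) - f x = p := by
    intro x
    rw [← hp]
    exact const_of_int (D := fun x => f (x + 1) - f x) (by fun_prop) hD x 0
  have hg : Function.Periodic (fun x : ℝ => f x - p * x) 1 := by
    intro x
    simp only
    linarith [hDc x]
  refine ⟨p, ⟨hg.lift, ?_⟩, ?_⟩
  · refine Continuous.quotient_lift (by fun_prop) _
  · intro y
    obtain ⟨x, rfl⟩ := exists_rep y
    change φ (x : T) = p • (x : T) + ((hg.lift (x : T) : ℝ) : T)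
    rw [hg.lift_coe, ← hf', ← AddCircle.coe_zsmul, ← AddCircle.coe_add]
    congr 1
    simp

/-- The explicit solution for maps of degree `p` and `q` of the circle. -/
def U (p q : ℤ) (x s : ℝ) : ℝ := (s - p * x) * (q * x) + p * q * (x * (x - 1)) / 2

theorem U_shift (p q : ℤ) (x s : ℝ) (n : ℤ) (h : ∃ a : ℤ, s - p * x = a) :
    ((U p q (x + n) s : ℝ) : T) = ((U p q x s : ℝ) : T) := by
  obtain ⟨a, ha⟩ := h
  obtain ⟨m, hm⟩ : ∃ m : ℤ, n * (n + 1) = 2 * m := by
    obtain ⟨m, hm⟩ := Int.even_mul_succ_self n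
    exact ⟨m, by rw [hm]; ring⟩
  rw [coe_eq_coe]
  refine ⟨a * q * n - p * q * m, ?_⟩
  have hm' : (n : ℝ) * (n + 1) = 2 * m := by exact_mod_cast hm
  have hs : s = a + p * x := by linarith
  unfold U
  push_cast
  subst hs
  linear_combination (-(p * q / 2 : ℝ)) * hm'

theorem splits_deg (p q : ℤ) :
    Splits (⟨fun y => p • y, by fun_prop⟩ : C(T, T)) (⟨fun y => q • y, by fun_prop⟩ : C(T, T)) := by
  choose r hr using exists_rep
  have hdom : ∀ (x s : ℝ), p • (x : T) = (s : T) → ∃ a : ℤ, s - p * x = a := by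
    intro x s h
    rw [← AddCircle.coe_zsmul] at h
    obtain ⟨a, ha⟩ := coe_eq_coe.1 h.symm
    refine ⟨a, ?_⟩
    rw [zsmul_eq_mul] at ha
    linarith
  have hinv : ∀ (x s : ℝ), p • (x : T) = (s : T) →
      ((U p q (r x) s : ℝ) : T) = ((U p q x s : ℝ) : T) := by
    intro x s h
    obtain ⟨n, hn⟩ := coe_eq_coe.1 (hr (x : T))
    rw [hn]
    exact U_shift p q x s n (hdom x s h)
  refine ⟨fun w => ((U p q (r w.1) w.2 : ℝ) : T), ?_, ?_⟩
  · intro w hw
    obtain ⟨e, he, hee⟩ := AddCircle.isLocalHomeomorph_coe (1 : ℝ) (r w.1)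
    have ht : w.1 ∈ e.target := by
      have := e.map_source he
      rwa [← hee, hr] at this
    have hcont : ContinuousAt (fun v : T × ℝ => ((U p q (e.symm v.1) v.2 : ℝ) : T)) w := by
      have h1 : ContinuousAt (fun v : T × ℝ => e.symm v.1) w :=
        (e.continuousAt_symm ht).comp continuousAt_fst
      refine (AddCircle.continuous_mk' 1).continuousAt.comp ?_
      unfold U
      fun_prop
    refine hcont.continuousWithinAt.congr_of_eventuallyEq ?_ ?_
    · have h2 : ∀ᶠ v : T × ℝ in 𝓝 w, v.1 ∈ e.target :=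
        (continuous_fst.tendsto w).eventually (e.open_target.mem_nhds ht)
      filter_upwards [nhdsWithin_le_nhds h2, self_mem_nhdsWithin] with v hv hv2
      have h3 : ((e.symm v.1 : ℝ) : T) = v.1 := by
        have := e.right_inv hv
        rwa [← hee] at this
      have h4 := hinv (e.symm v.1) v.2 (by rw [h3]; exact hv2)
      rw [h3] at h4
      exact h4
    · have h3 : ((e.symm w.1 : ℝ) : T) = w.1 := by
        have := e.right_inv ht
        rwa [← hee] at this
      have h4 := hinv (e.symm w.1) w.2 (by rw [h3]; exact hw)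
      rw [h3] at h4
      exact h4
  · intro y s h
    change ((U p q (r y) (s + 1) : ℝ) : T) = ((U p q (r y) s : ℝ) : T) + q • y
    have h1 : U p q (r y) (s + 1) = U p q (r y) s + q * r y := by
      unfold U
      ring
    have h2 : ((q * r y : ℝ) : T) = q • y := by
      rw [← zsmul_eq_mul, AddCircle.coe_zsmul, hr]
    rw [h1, AddCircle.coe_add, h2]

theorem splits_T (φ ψ : C(T, T)) : Splits φ ψ := by
  obtain ⟨p, δ, hδ⟩ := exists_degree φ
  obtain ⟨q, ε, hε⟩ := exists_degree ψ
  refine (splits_deg p q).change (-δ) (-ε) (fun y => ?_) (fun y => ?_)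
  · rw [hδ]
    simp
  · rw [hε]
    simp

/-- The unit circle in the plane is homeomorphic to `ℝ/ℤ`. -/
def sphOneHomeo : Sph 1 ≃ₜ T := by
  let e : ℂ ≃ₗᵢ[ℝ] EuclideanSpace ℝ (Fin 2) := Complex.orthonormalBasisOneI.repr
  let h1 : Circle ≃ₜ Sph 1 :=
    { toFun := fun z => ⟨e (z : ℂ), by
        rw [mem_sphere_zero_iff_norm, e.norm_map, Circle.norm_coe]⟩
      invFun := fun x => ⟨e.symm x, by
        change e.symm x.1 ∈ sphere (0 : ℂ) 1
        rw [mem_sphere_zero_iff_norm, e.symm.norm_map]
        exact mem_sphere_zero_iff_norm.1 x.2⟩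
      left_inv := fun z => by
        apply Circle.ext
        simp
      right_inv := fun x => by
        apply Subtype.ext
        simp
      continuous_toFun := by
        refine Continuous.subtype_mk ?_ _
        exact e.continuous.comp continuous_subtype_val
      continuous_invFun := by
        refine Continuous.subtype_mk ?_ _
        exact e.symm.continuous.comp continuous_subtype_val }
  exact h1.symm.trans (AddCircle.homeomorphCircle one_ne_zero).symm

theorem splits_sph_one (φ ψ : C(Sph 1, T)) : Splits φ ψ :=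
  splits_of_homotopyEquiv sphOneHomeo.toHomotopyEquiv splits_T φ ψ

theorem splits_sph_zero (φ ψ : C(Sph 0, T)) : Splits φ ψ := by
  have hx : ∀ x : Sph 0, x.1 0 = 1 ∨ x.1 0 = -1 := by
    intro x
    have h1 : ‖x.1‖ = 1 := mem_sphere_zero_iff_norm.1 x.2
    rw [EuclideanSpace.norm_eq, Fin.sum_univ_succ, Finset.univ_eq_empty, Finset.sum_empty, add_zero,
      Real.norm_eq_abs, sq_abs, Real.sqrt_sq_eq_abs] at h1
    exact eq_or_eq_neg_of_abs_eq h1
  have hinj : Function.Injective (fun x : Sph 0 => x.1 0) := by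
    intro x y hxy
    apply Subtype.ext
    ext i
    have : i = 0 := by omega
    rw [this]
    exact hxy
  have hfin : Finite (Sph 0) := by
    refine Finite.of_injective (fun x : Sph 0 => (⟨x.1 0, hx x⟩ : ({1, -1} : Set ℝ))) ?_
    intro x y hxy
    exact hinj (congrArg Subtype.val hxy)
  choose r hr using exists_rep
  exact splits_of_lift ψ ⟨fun x => r (φ x), continuous_of_discreteTopology⟩ (fun y => (hr _).symm)

theorem splits_sph_ge (d : ℕ) (hd : 2 ≤ d) (φ ψ : C(Sph d, T)) : Splits φ ψ := by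
  have : SimplyConnectedSpace (Sph d) :=
    Pool.Agent.Helper206.BoxS.Sph.simplyConnected_sphere (by simp; omega)
  have : Fact (Module.finrank ℝ (EuclideanSpace ℝ (Fin (d + 1))) = d + 1) := ⟨by simp⟩
  have : LocallyPathConnectedSpace (Sph d) :=
    ChartedSpace.locallyPathConnectedSpace (EuclideanSpace ℝ (Fin d)) (Sph d)
  obtain ⟨x0⟩ : Nonempty (Sph d) := inferInstance
  obtain ⟨a, ha⟩ := exists_rep (φ x0)
  obtain ⟨f, ⟨-, hf⟩, -⟩ := (AddCircle.isCoveringMap_coe (1 : ℝ)).existsUnique_continuousMap_lifts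
    φ x0 a ha
  exact splits_of_lift ψ f (fun y => (congr_fun hf y).symm)

theorem splits_sph (d : ℕ) (φ ψ : C(Sph d, T)) : Splits φ ψ := by
  rcases Nat.lt_or_ge d 2 with h | h
  · interval_cases d
    · exact splits_sph_zero φ ψ
    · exact splits_sph_one φ ψ
  · exact splits_sph_ge d h φ ψ

section wedge

variable {ι : Type} [Finite ι] [DecidableEq ι] {S : ι → Type} [∀ i, TopologicalSpace (S i)]
  [∀ i, T1Space (S i)]

/-- The wedge of a finite family of pointed spaces, as a subspace of the product. -/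
def PWedge (e : ∀ i, S i) : Type := {x : ∀ i, S i // ∀ i j, i ≠ j → x i = e i ∨ x j = e j}

instance (e : ∀ i, S i) : TopologicalSpace (PWedge e) := instTopologicalSpaceSubtype

/-- The inclusion of a piece. -/
def incl (e : ∀ i, S i) (i : ι) : C(S i, PWedge e) where
  toFun z := ⟨Function.update e i z, fun a b hab => by
    by_cases h : a = i
    · right
      rw [Function.update_of_ne]
      rintro rfl
      exact hab h
    · left
      rw [Function.update_of_ne h]⟩
  continuous_toFun := by
    refine Continuous.subtype_mk ?_ _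
    exact continuous_const.update i continuous_id

theorem splits_wedge (e : ∀ i, S i) (hS : ∀ i, ∀ φ ψ : C(S i, T), Splits φ ψ)
    (φ ψ : C(PWedge e, T)) : Splits φ ψ := by
  classical
  rcases isEmpty_or_nonempty ι with hι | hι
  · obtain ⟨a, ha⟩ := exists_rep (φ ⟨fun i => e i, fun i => (hι.false i).elim⟩)
    refine splits_of_lift ψ (ContinuousMap.const _ a) (fun y => ?_)
    have : y = ⟨fun i => e i, fun i => (hι.false i).elim⟩ := by
      apply Subtype.ext
      funext i
      exact (hι.false i).elim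
    rw [this]
    exact ha.symm
  -- the base point
  let w0 : PWedge e := ⟨fun i => e i, fun i j _ => Or.inl rfl⟩
  obtain ⟨a0, ha0⟩ := exists_rep (φ w0)
  -- the closed pieces
  let C : ι → Set (PWedge e) := fun i => {x | ∀ j, j ≠ i → x.1 j = e j}
  have hC : ∀ i, IsClosed (C i) := by
    intro i
    have : C i = ⋂ j, ⋂ (_ : j ≠ i), {x : PWedge e | x.1 j = e j} := by
      ext x
      simp [C]
    rw [this]
    refine isClosed_iInter fun j => isClosed_iInter fun _ => ?_
    have hcont : Continuous (fun x : PWedge e => x.1 j) :=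
      (continuous_apply j).comp continuous_subtype_val
    exact isClosed_singleton.preimage hcont
  have hcov : ∀ x : PWedge e, ∃ i, x ∈ C i := by
    intro x
    by_cases h : ∃ i, x.1 i ≠ e i
    · obtain ⟨i, hi⟩ := h
      refine ⟨i, fun j hj => ?_⟩
      exact (x.2 j i hj).resolve_right hi
    · push Not at h
      obtain ⟨i⟩ := hι
      exact ⟨i, fun j _ => h j⟩
  have hincl : ∀ i, ∀ x ∈ C i, incl e i (x.1 i) = x := by
    intro i x hx
    apply Subtype.ext
    funext j
    change Function.update (fun j => e j) i (x.1 i) j = x.1 j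
    by_cases h : j = i
    · subst h
      rw [Function.update_self]
    · rw [Function.update_of_ne h, hx j h]
  have hbase : ∀ i, incl e i (e i) = w0 := by
    intro i
    have := hincl i w0 (fun j _ => rfl)
    exact this
  choose u hu hu1 using fun i => hS i (φ.comp (incl e i)) (ψ.comp (incl e i))
  -- normalised
  let v : ∀ i, S i × ℝ → T := fun i p => u i p - u i (e i, a0)
  have hv : ∀ i, ContinuousOn (v i) {p | φ (incl e i p.1) = (p.2 : T)} := by
    intro i
    exact (hu i).sub continuousOn_const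
  have hv1 : ∀ i (y : S i) (s : ℝ), φ (incl e i y) = (s : T) →
      v i (y, s + 1) = v i (y, s) + ψ (incl e i y) := by
    intro i y s hs
    have := hu1 i y s hs
    simp only [v]
    rw [this]
    simp only [ContinuousMap.comp_apply]
    abel
  have hshift : ∀ i (n : ℤ), φ (incl e i (e i)) = ((a0 + n : ℝ) : T) := by
    intro i n
    rw [hbase, AddCircle.coe_add, coe_int, add_zero, ha0]
  have hvb : ∀ i (n : ℤ), v i (e i, a0 + n) = n • ψ w0 := by
    intro i n
    induction n using Int.induction_on with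
    | zero => simp [v]
    | succ n ih =>
      have := hv1 i (e i) (a0 + (n : ℤ)) (hshift i n)
      rw [ih, hbase, add_assoc] at this
      push_cast at this ⊢
      rw [this, add_smul, one_smul]
    | pred n ih =>
      have := hv1 i (e i) (a0 + ((-n - 1 : ℤ) : ℝ)) (hshift i (-n - 1))
      rw [show a0 + ((-n - 1 : ℤ) : ℝ) + 1 = a0 + ((-n : ℤ) : ℝ) by push_cast; ring, ih,
        hbase] at this
      rw [sub_smul, one_smul, this]
      abel
  choose k hk using hcov
  let w : PWedge e × ℝ → T := fun p => v (k p.1) (p.1.1 (k p.1), p.2)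
  have hw : ∀ i (x : PWedge e) (s : ℝ), x ∈ C i → φ x = (s : T) → w (x, s) = v i (x.1 i, s) := by
    intro i x s hx hs
    change v (k x) (x.1 (k x), s) = v i (x.1 i, s)
    by_cases h : k x = i
    · rw [h]
    · have h1 : x.1 i = e i := hk x i (fun h' => h h'.symm)
      have h2 : x.1 (k x) = e (k x) := hx (k x) h
      have h3 : x = w0 := by
        apply Subtype.ext
        funext j
        by_cases hj : j = i
        · rw [hj]
          exact h1
        · exact hx j hj
      obtain ⟨n, hn⟩ : ∃ n : ℤ, s = a0 + n := coe_eq_coe.1 (by rw [← hs, h3, ha0])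
      rw [h1, h2, hn, hvb, hvb]
  refine ⟨w, ?_, ?_⟩
  · have hdom : {p : PWedge e × ℝ | φ p.1 = (p.2 : T)} =
        ⋃ i, ({p : PWedge e × ℝ | φ p.1 = (p.2 : T)} ∩ {p | p.1 ∈ C i}) := by
      ext p
      simp only [mem_iUnion, mem_inter_iff]
      exact ⟨fun h => ⟨k p.1, h, hk p.1⟩, fun ⟨i, h, _⟩ => h⟩
    have hclosed : IsClosed {p : PWedge e × ℝ | φ p.1 = (p.2 : T)} := by
      refine isClosed_eq (by fun_prop) ?_
      exact (AddCircle.continuous_mk' 1).comp continuous_snd
    rw [hdom]
    refine (locallyFinite_of_finite _).continuousOn_iUnion (fun i => ?_) (fun i => ?_)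
    · exact hclosed.inter ((hC i).preimage continuous_fst)
    · have h1 : ContinuousOn (fun p : PWedge e × ℝ => v i (p.1.1 i, p.2))
          ({p : PWedge e × ℝ | φ p.1 = (p.2 : T)} ∩ {p | p.1 ∈ C i}) := by
        refine (hv i).comp ?_ ?_
        · have hcont : Continuous (fun x : PWedge e => x.1 i) :=
            (continuous_apply i).comp continuous_subtype_val
          exact ((hcont.comp continuous_fst).prodMk continuous_snd).continuousOn
        · rintro p ⟨hp1, hp2⟩
          change φ (incl e i (p.1.1 i)) = (p.2 : T)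
          rw [hincl i p.1 hp2]
          exact hp1
      refine h1.congr ?_
      rintro ⟨x, s⟩ ⟨hp1, hp2⟩
      exact hw i x s hp2 hp1
  · intro x s hs
    have hs1 : φ x = ((s + 1 : ℝ) : T) := by
      rw [hs, AddCircle.coe_add, AddCircle.coe_period, add_zero]
    rw [hw (k x) x s (hk x) hs, hw (k x) x (s + 1) (hk x) hs1]
    have := hv1 (k x) (x.1 (k x)) s (by rw [hincl _ _ (hk x)]; exact hs)
    rw [this, hincl _ _ (hk x)]

end wedge

/-- All pairs of circle valued maps on a wedge of spheres split. -/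
theorem splits_wedge_spheres {k : ℕ} (d : Fin k → ℕ) (φ ψ : C(Wedge d, T)) : Splits φ ψ :=
  splits_wedge (fun i => basePt (d i)) (fun i => splits_sph (d i)) φ ψ

end Q173.CG
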