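import Mathlib
import Pool.Agent.Q173.CG.Defs
import Pool.Agent.Q173.CG.Split

/-!
# Circle valued maps on the independence complex given by integer cocycles

If the pair of maps given by two integer cocycles `c`, `c'` splits then the simplicial cup product
of `c` and `c'` is the coboundary of a real cochain.
-/

set_option autoImplicit false

open Topology unitInterval Set Metric

noncomputable section

namespace Q173.CG

variable {V : Type} [Fintype V] [DecidableEq V] {G : SimpleGraph V}

/-- Integer cocycles. -/
def IsCocycle (G : SimpleGraph V) (c : V → V → ℤ) : Prop :=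
  ∀ v w z, ¬ G.Adj v w → ¬ G.Adj w z → ¬ G.Adj v z → c v z = c v w + c w z

omit [Fintype V] [DecidableEq V] in
theorem IsCocycle.self {c : V → V → ℤ} (hc : IsCocycle G c) (v : V) : c v v = 0 := by
  have := hc v v v G.irrefl G.irrefl G.irrefl
  omega

/-- The linear function at the vertex `v`. -/
def lin (c : V → V → ℤ) (v : V) (x : IndepComplex G) : ℝ := ∑ w, x.1 w * (c v w : ℝ)

omit [DecidableEq V] in
theorem continuous_coord (w : V) : Continuous (fun x : IndepComplex G => x.1 w) :=
  (continuous_apply w).comp continuous_subtype_val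

omit [DecidableEq V] in
theorem continuous_lin (c : V → V → ℤ) (v : V) : Continuous (lin (G := G) c v) := by
  unfold lin
  exact continuous_finsetSum _ fun w _ => (continuous_coord w).mul continuous_const

omit [DecidableEq V] in
theorem not_adj_of_support (x : IndepComplex G) {v w : V} (hv : x.1 v ≠ 0) (hw : x.1 w ≠ 0) :
    ¬ G.Adj v w := by
  intro h
  exact x.2.2 hv hw h.ne h

omit [DecidableEq V] in
theorem exists_support (x : IndepComplex G) : ∃ v, x.1 v ≠ 0 := by
  by_contra h
  push Not at h
  have h1 := x.2.1.2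
  simp [h] at h1

/-- The star of a vertex. -/
def star (G : SimpleGraph V) (v : V) : Set (IndepComplex G) := {x | ∀ w, x.1 w ≠ 0 → ¬ G.Adj v w}

omit [DecidableEq V] in
theorem mem_star_of_support (x : IndepComplex G) {v : V} (hv : x.1 v ≠ 0) : x ∈ star G v :=
  fun _ hw => not_adj_of_support x hv hw

omit [DecidableEq V] in
theorem lin_eq {c : V → V → ℤ} (hc : IsCocycle G c) {v w : V} {x : IndepComplex G}
    (hv : x ∈ star G v) (hw : x ∈ star G w) (hvw : ¬ G.Adj v w) :
    lin c v x = lin c w x + c v w := by
  have h1 : (c v w : ℝ) = ∑ z, x.1 z * (c v w : ℝ) := by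
    rw [← Finset.sum_mul, x.2.1.2, one_mul]
  unfold lin
  rw [h1, ← Finset.sum_add_distrib]
  refine Finset.sum_congr rfl fun z _ => ?_
  by_cases hz : x.1 z = 0
  · rw [hz]
    ring
  · have := hc v w z hvw (hw z hz) (hv z hz)
    rw [this]
    push_cast
    ring

/-- The circle valued map of a cocycle. -/
def circ (c : V → V → ℤ) (x : IndepComplex G) : T := ((lin c (exists_support x).choose x : ℝ) : T)

omit [DecidableEq V] in
theorem circ_eq {c : V → V → ℤ} (hc : IsCocycle G c) {v : V} {x : IndepComplex G}
    (hv : x ∈ star G v) : circ c x = ((lin c v x : ℝ) : T) := by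
  have h0 := (exists_support x).choose_spec
  unfold circ
  rw [lin_eq hc (mem_star_of_support x h0) hv (fun h => hv _ h0 h.symm), AddCircle.coe_add,
    coe_int, add_zero]

omit [DecidableEq V] in
theorem continuous_circ {c : V → V → ℤ} (hc : IsCocycle G c) :
    Continuous (circ (G := G) c) := by
  rw [continuous_iff_continuousAt]
  intro x
  obtain ⟨v, hv⟩ := exists_support x
  have h1 : ContinuousAt (fun y : IndepComplex G => ((lin c v y : ℝ) : T)) x :=
    ((AddCircle.continuous_mk' 1).comp (continuous_lin c v)).continuousAt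
  refine h1.congr ?_
  have h2 : ∀ᶠ y : IndepComplex G in 𝓝 x, y.1 v ≠ 0 :=
    ((continuous_coord v).tendsto x).eventually (isOpen_ne.mem_nhds hv)
  filter_upwards [h2] with y hy
  exact (circ_eq hc (mem_star_of_support y hy)).symm

/-- The continuous map of a cocycle. -/
def circMap {c : V → V → ℤ} (hc : IsCocycle G c) : C(IndepComplex G, T) :=
  ⟨circ c, continuous_circ hc⟩

/-- The point on the segment between two vertices. -/
def seg (v w : V) (h : ¬ G.Adj v w) (t : I) : IndepComplex G :=
  ⟨fun z => (1 - (t : ℝ)) * (if z = v then 1 else 0) + t * (if z = w then 1 else 0), by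
    have h0 := t.2.1
    have h1 := t.2.2
    refine ⟨⟨fun z => ?_, ?_⟩, ?_⟩
    · have : (0 : ℝ) ≤ 1 - t := by linarith
      positivity
    · rw [Finset.sum_add_distrib, ← Finset.mul_sum, ← Finset.mul_sum]
      simp
    · have hs : ∀ z, (1 - (t : ℝ)) * (if z = v then 1 else 0) + t * (if z = w then 1 else 0) ≠ 0 →
          z = v ∨ z = w := by
        intro z hz
        by_contra hcon
        push Not at hcon
        apply hz
        rw [if_neg hcon.1, if_neg hcon.2]
        ring
      intro a ha b hb hab hadj
      rcases hs a ha with rfl | rfl <;> rcases hs b hb with rfl | rfl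
      · exact hab rfl
      · exact h hadj
      · exact h hadj.symm
      · exact hab rfl⟩

theorem continuous_seg (v w : V) (h : ¬ G.Adj v w) : Continuous (seg v w h) := by
  refine Continuous.subtype_mk ?_ _
  refine continuous_pi fun z => ?_
  fun_prop

/-- The vertices of the complex. -/
def vert (G : SimpleGraph V) (v : V) : IndepComplex G := seg v v G.irrefl 0

theorem seg_zero (v w : V) (h : ¬ G.Adj v w) : seg v w h 0 = vert G v := by
  apply Subtype.ext
  funext z
  simp [seg, vert]

theorem seg_one (v w : V) (h : ¬ G.Adj v w) : seg v w h 1 = vert G w := by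
  apply Subtype.ext
  funext z
  simp [seg, vert]

theorem vert_apply (v z : V) : (vert G v).1 z = if z = v then 1 else 0 := by
  simp [seg, vert]

theorem lin_vert (c : V → V → ℤ) (v w : V) : lin c v (vert G w) = c v w := by
  unfold lin
  simp [vert_apply]

theorem seg_mem_star {v w u : V} (h : ¬ G.Adj v w) (hv : ¬ G.Adj u v) (hw : ¬ G.Adj u w) (t : I) :
    seg v w h t ∈ star G u := by
  intro z hz
  have : z = v ∨ z = w := by
    by_contra hcon
    push Not at hcon
    apply hz
    change (1 - (t : ℝ)) * (if z = v then 1 else 0) + t * (if z = w then 1 else 0) = 0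
    rw [if_neg hcon.1, if_neg hcon.2]
    ring
  rcases this with rfl | rfl
  · exact hv
  · exact hw

theorem vert_mem_star {v u : V} (hv : ¬ G.Adj u v) : vert G v ∈ star G u :=
  seg_mem_star _ hv hv 0

/-- The contraction of the star of `v` to the vertex `v`. -/
def contr (v : V) (t : I) (x : star G v) : star G v :=
  ⟨⟨fun z => (1 - (t : ℝ)) * (if z = v then 1 else 0) + t * x.1.1 z, by
    have h0 := t.2.1
    have h1 := t.2.2
    refine ⟨⟨fun z => ?_, ?_⟩, ?_⟩
    · have h2 : (0 : ℝ) ≤ 1 - t := by linarith
      have h3 : (0 : ℝ) ≤ x.1.1 z := x.1.2.1.1 z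
      positivity
    · rw [Finset.sum_add_distrib, ← Finset.mul_sum, ← Finset.mul_sum, x.1.2.1.2]
      simp
    · have hs : ∀ z, (1 - (t : ℝ)) * (if z = v then 1 else 0) + t * x.1.1 z ≠ 0 →
          z = v ∨ x.1.1 z ≠ 0 := by
        intro z hz
        by_contra hcon
        push Not at hcon
        apply hz
        rw [if_neg hcon.1, hcon.2]
        ring
      intro a ha b hb hab hadj
      rcases hs a ha with rfl | ha' <;> rcases hs b hb with rfl | hb'
      · exact hab rfl
      · exact x.2 b hb' hadj
      · exact x.2 a ha' hadj.symm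
      · exact not_adj_of_support x.1 ha' hb' hadj⟩, by
    intro z hz
    by_cases hzv : z = v
    · rw [hzv]
      exact G.irrefl
    · refine x.2 z ?_
      intro h0
      apply hz
      change (1 - (t : ℝ)) * (if z = v then 1 else 0) + t * x.1.1 z = 0
      rw [if_neg hzv, h0]
      ring⟩

theorem continuous_contr (v : V) : Continuous (fun p : I × star G v => contr v p.1 p.2) := by
  refine Continuous.subtype_mk (Continuous.subtype_mk (continuous_pi fun z => ?_) _) _
  have h1 : Continuous (fun p : I × star G v => (p.2.1.1 z : ℝ)) :=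
    (continuous_coord z).comp (continuous_subtype_val.comp continuous_snd)
  fun_prop

/-- Every circle valued map on the star of a vertex lifts to the reals. -/
theorem exists_lift_star (v : V) (f : C(star G v, T)) : ∃ F : C(star G v, ℝ),
    ∀ x, f x = (F x : T) := by
  refine exists_lift_of_nullhomotopic (c := f ⟨vert G v, vert_mem_star G.irrefl⟩) ?_
  refine ⟨⟨⟨fun p => f (contr v p.1 p.2), f.continuous.comp (continuous_contr v)⟩, ?_, ?_⟩⟩
  · intro x
    change f (contr v 0 x) = _
    rw [ContinuousMap.const_apply]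
    congr 1
    apply Subtype.ext
    apply Subtype.ext
    funext z
    simp [contr, vert_apply]
  · intro x
    change f (contr v 1 x) = _
    congr 1
    apply Subtype.ext
    apply Subtype.ext
    funext z
    simp [contr]

theorem zsmul_shift {Y : Type} [TopologicalSpace Y] {φ ψ : C(Y, T)} {u : Y × ℝ → T}
    (hu : ∀ (y : Y) (s : ℝ), φ y = (s : T) → u (y, s + 1) = u (y, s) + ψ y) (y : Y) (s : ℝ)
    (hs : φ y = (s : T)) (n : ℤ) : u (y, s + n) = u (y, s) + n • ψ y := by
  have h : ∀ m : ℤ, φ y = ((s + m : ℝ) : T) := by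
    intro m
    rw [AddCircle.coe_add, coe_int, add_zero, hs]
  induction n using Int.induction_on with
  | zero => simp
  | succ n ih =>
    have := hu y (s + (n : ℤ)) (h n)
    rw [ih, add_assoc] at this
    push_cast at this ⊢
    rw [this, add_smul, one_smul]
    abel
  | pred n ih =>
    have := hu y (s + ((-n - 1 : ℤ) : ℝ)) (h (-n - 1))
    rw [show s + ((-n - 1 : ℤ) : ℝ) + 1 = s + ((-n : ℤ) : ℝ) by push_cast; ring, ih] at this
    have h2 : u (y, s + ((-n - 1 : ℤ) : ℝ)) = u (y, s) + (-(n : ℤ)) • ψ y - ψ y := by
      rw [this]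
      abel
    rw [h2, sub_smul, one_smul]
    abel

/-- If the maps of two cocycles split then the cup product is a coboundary. -/
theorem exists_cochain {c c' : V → V → ℤ} (hc : IsCocycle G c) (hc' : IsCocycle G c')
    (h : Splits (circMap hc) (circMap hc')) :
    ∃ A : V → V → ℝ, ∀ v w z, ¬ G.Adj v w → ¬ G.Adj w z → ¬ G.Adj v z →
      A v z = A v w + A w z + c v w * c' w z := by
  classical
  obtain ⟨u, hu, hu1⟩ := h
  have hdom : ∀ v, ∀ x ∈ star G v, circMap hc x = ((lin c v x : ℝ) : T) := fun v x hx =>
    circ_eq hc hx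
  have hcont : ∀ v, Continuous (fun x : star G v => u (x.1, lin c v x.1)) := by
    intro v
    refine hu.comp_continuous ?_ ?_
    · exact continuous_subtype_val.prodMk ((continuous_lin c v).comp continuous_subtype_val)
    · intro x
      exact hdom v x.1 x.2
  choose F hF using fun v => exists_lift_star v (G := G) ⟨_, hcont v⟩
  have hF' : ∀ v (x : star G v), u (x.1, lin c v x.1) = ((F v x : ℝ) : T) := hF
  let A : V → V → ℝ := fun v w => if hvw : ¬ G.Adj v w then
    F v ⟨vert G w, vert_mem_star hvw⟩ - F v ⟨vert G v, vert_mem_star G.irrefl⟩ else 0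
  refine ⟨A, fun v w z hvw hwz hvz => ?_⟩
  have hww := G.irrefl (v := w)
  -- the difference along the segment from `w` to `z`
  let D : I → ℝ := fun t => F v ⟨seg w z hwz t, seg_mem_star hwz hvw hvz t⟩
    - F w ⟨seg w z hwz t, seg_mem_star hwz hww hwz t⟩ - c v w * lin c' w (seg w z hwz t)
  have hDc : Continuous D := by
    have h1 : Continuous (fun t : I =>
        (⟨seg w z hwz t, seg_mem_star hwz hvw hvz t⟩ : star G v)) :=
      (continuous_seg w z hwz).subtype_mk _
    have h2 : Continuous (fun t : I =>
        (⟨seg w z hwz t, seg_mem_star hwz hww hwz t⟩ : star G w)) :=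
      (continuous_seg w z hwz).subtype_mk _
    have h3 : Continuous (fun t : I => lin c' w (seg w z hwz t)) :=
      (continuous_lin c' w).comp (continuous_seg w z hwz)
    exact (((F v).continuous.comp h1).sub ((F w).continuous.comp h2)).sub (h3.const_mul _)
  have hDi : ∀ t, ∃ n : ℤ, D t = n := by
    intro t
    have hv := seg_mem_star hwz hvw hvz t
    have hw := seg_mem_star hwz hww hwz t
    have h1 := hF' v ⟨seg w z hwz t, hv⟩
    have h2 := hF' w ⟨seg w z hwz t, hw⟩
    have h3 : lin c v (seg w z hwz t) = lin c w (seg w z hwz t) + c v w := lin_eq hc hv hw hvw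
    have h4 := zsmul_shift hu1 (seg w z hwz t) (lin c w (seg w z hwz t)) (hdom w _ hw) (c v w)
    have h5 : circMap hc' (seg w z hwz t) = ((lin c' w (seg w z hwz t) : ℝ) : T) := circ_eq hc' hw
    simp only at h1 h2
    rw [h3, h4, h2, h5, ← AddCircle.coe_zsmul, ← AddCircle.coe_add] at h1
    obtain ⟨n, hn⟩ := coe_eq_coe.1 h1
    refine ⟨-n, ?_⟩
    simp only [D]
    rw [zsmul_eq_mul] at hn
    push_cast
    linarith
  have hD01 := const_of_int hDc hDi 0 1
  simp only [D, seg_zero, seg_one, lin_vert, hc'.self] at hD01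
  have hA1 : A v z = F v ⟨vert G z, vert_mem_star hvz⟩ - F v ⟨vert G v, vert_mem_star G.irrefl⟩ :=
    dif_pos hvz
  have hA2 : A v w = F v ⟨vert G w, vert_mem_star hvw⟩ - F v ⟨vert G v, vert_mem_star G.irrefl⟩ :=
    dif_pos hvw
  have hA3 : A w z = F w ⟨vert G z, vert_mem_star hwz⟩ - F w ⟨vert G w, vert_mem_star G.irrefl⟩ :=
    dif_pos hwz
  rw [hA1, hA2, hA3]
  push_cast at hD01
  linarith

end Q173.CG
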