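import Mathlib
import Pool.Agent.Q173.CG.Defs
import Pool.Agent.Q173.CG.Complex
import Pool.Agent.Q173.CG.Chords

/-!
# The example: a circle graph with 15 vertices whose independence complex is a torus

The 30 points `0, ..., 29` are in cyclic order on the circle. The chords are the five chords
`{3 k, 3 k + 15}` and the ten chords `{3 j + 2, 3 j + 10}` (modulo 30).
-/

set_option autoImplicit false

namespace Q173.CG

/-- First endpoints. -/
def ea : Fin 15 → ℕ := ![0, 3, 6, 9, 12, 2, 5, 8, 11, 14, 17, 20, 1, 4, 7]

/-- Second endpoints. -/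
def eb : Fin 15 → ℕ := ![15, 18, 21, 24, 27, 10, 13, 16, 19, 22, 25, 28, 23, 26, 29]

/-- The endpoints of two chords alternate. -/
def Alt (v w : Fin 15) : Prop :=
  (ea v < ea w ∧ ea w < eb v ∧ eb v < eb w) ∨ (ea w < ea v ∧ ea v < eb w ∧ eb w < eb v)

instance : DecidableRel Alt := fun v w => by
  unfold Alt
  infer_instance

/-- The graph. -/
def torusGraph : SimpleGraph (Fin 15) where
  Adj := Alt
  symm := ⟨fun v w h => by
    rcases h with h | h
    · exact Or.inr h
    · exact Or.inl h⟩
  loopless := ⟨fun v h => by
    rcases h with h | h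
    · exact lt_irrefl _ h.1
    · exact lt_irrefl _ h.1⟩

instance : DecidableRel torusGraph.Adj := inferInstanceAs (DecidableRel Alt)

theorem ends_injective : Function.Injective (Sum.elim ea eb : Fin 15 ⊕ Fin 15 → ℕ) := by
  decide

theorem ea_lt_eb : ∀ v, ea v < eb v := by decide

theorem isCircleGraph : IsCircleGraph torusGraph := by
  refine ⟨fun v => cpt (ea v), fun v => cpt (eb v), ?_, ?_⟩
  · have h1 : (Sum.elim (fun v => cpt (ea v)) (fun v => cpt (eb v)) : Fin 15 ⊕ Fin 15 → Circle) =
        fun x => cpt ((Sum.elim ea eb x : ℕ) : ℝ) := by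
      funext x
      rcases x with x | x <;> rfl
    rw [h1]
    intro x y hxy
    exact ends_injective (Nat.cast_injective (cpt_injective hxy))
  · intro v w
    by_cases hvw : v = w
    · subst hvw
      exact ⟨fun h => absurd h torusGraph.irrefl, fun h => absurd rfl h.1⟩
    have hne : ∀ x y : Fin 15 ⊕ Fin 15, x ≠ y → ((Sum.elim ea eb x : ℕ) : ℝ) ≠
        ((Sum.elim ea eb y : ℕ) : ℝ) := by
      intro x y hxy h
      exact hxy (ends_injective (Nat.cast_injective h))
    have h1 := inter_iff (a := ea v) (b := eb v) (c := ea w) (d := eb w)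
      (by exact_mod_cast ea_lt_eb v) (by exact_mod_cast ea_lt_eb w)
      (hne (Sum.inl w) (Sum.inl v) (by simpa using Ne.symm hvw))
      (hne (Sum.inl w) (Sum.inr v) (by simp))
      (hne (Sum.inr w) (Sum.inl v) (by simp))
      (hne (Sum.inr w) (Sum.inr v) (by simpa using Ne.symm hvw))
    rw [coe_cpt, coe_cpt, coe_cpt, coe_cpt, h1]
    change Alt v w ↔ _
    unfold Alt
    norm_cast
    exact ⟨fun h => ⟨hvw, h⟩, fun h => h.2⟩

/-- The positive values of the first cocycle. -/
def pos1 : List (Fin 15 × Fin 15) :=
  [(2, 7), (2, 13), (3, 13), (8, 13), (9, 6), (9, 13), (12, 1), (12, 6), (12, 7)]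

/-- The positive values of the second cocycle. -/
def pos2 : List (Fin 15 × Fin 15) :=
  [(1, 7), (2, 7), (2, 13), (3, 9), (3, 13), (3, 14), (8, 13), (8, 14), (11, 7), (11, 14), (12, 7)]

/-- The cochain of a list. -/
def coch (l : List (Fin 15 × Fin 15)) (v w : Fin 15) : ℤ :=
  if (v, w) ∈ l then 1 else if (w, v) ∈ l then -1 else 0

theorem cocycle1 : IsCocycle torusGraph (coch pos1) := by
  unfold IsCocycle
  decide +kernel

theorem cocycle2 : IsCocycle torusGraph (coch pos2) := by
  unfold IsCocycle
  decide +kernel

/-- The two circle valued maps do not split. -/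
theorem not_splits : ¬ Splits (circMap cocycle1) (circMap cocycle2) := by
  intro hs
  obtain ⟨A, hA⟩ := exists_cochain cocycle1 cocycle2 hs
  have H : ∀ (v w z : Fin 15) (k : ℤ), ¬ torusGraph.Adj v w → ¬ torusGraph.Adj w z →
      ¬ torusGraph.Adj v z → coch pos1 v w * coch pos2 w z = k → A v z = A v w + A w z + k := by
    intro v w z k h1 h2 h3 h4
    rw [hA v w z h1 h2 h3, ← h4]
    push_cast
    rfl
  have h0 := H 0 5 10 (0) (by decide) (by decide) (by decide)
    (by decide)
  have h1 := H 0 5 11 (0) (by decide) (by decide) (by decide)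
    (by decide)
  have h2 := H 0 6 10 (0) (by decide) (by decide) (by decide)
    (by decide)
  have h3 := H 0 6 11 (0) (by decide) (by decide) (by decide)
    (by decide)
  have h4 := H 1 6 11 (0) (by decide) (by decide) (by decide)
    (by decide)
  have h5 := H 1 6 12 (0) (by decide) (by decide) (by decide)
    (by decide)
  have h6 := H 1 7 11 (0) (by decide) (by decide) (by decide)
    (by decide)
  have h7 := H 1 7 12 (0) (by decide) (by decide) (by decide)
    (by decide)
  have h8 := H 2 7 12 (-1) (by decide) (by decide) (by decide)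
    (by decide)
  have h9 := H 2 7 13 (0) (by decide) (by decide) (by decide)
    (by decide)
  have h10 := H 2 8 12 (0) (by decide) (by decide) (by decide)
    (by decide)
  have h11 := H 2 8 13 (0) (by decide) (by decide) (by decide)
    (by decide)
  have h12 := H 3 8 13 (0) (by decide) (by decide) (by decide)
    (by decide)
  have h13 := H 3 8 14 (0) (by decide) (by decide) (by decide)
    (by decide)
  have h14 := H 3 9 13 (0) (by decide) (by decide) (by decide)
    (by decide)
  have h15 := H 3 9 14 (0) (by decide) (by decide) (by decide)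
    (by decide)
  have h16 := H 4 5 9 (0) (by decide) (by decide) (by decide)
    (by decide)
  have h17 := H 4 5 10 (0) (by decide) (by decide) (by decide)
    (by decide)
  have h18 := H 4 9 14 (0) (by decide) (by decide) (by decide)
    (by decide)
  have h19 := H 4 10 14 (0) (by decide) (by decide) (by decide)
    (by decide)
  have h20 := H 5 8 11 (0) (by decide) (by decide) (by decide)
    (by decide)
  have h21 := H 5 8 12 (0) (by decide) (by decide) (by decide)
    (by decide)
  have h22 := H 5 9 12 (0) (by decide) (by decide) (by decide)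
    (by decide)
  have h23 := H 6 9 12 (0) (by decide) (by decide) (by decide)
    (by decide)
  have h24 := H 6 9 13 (0) (by decide) (by decide) (by decide)
    (by decide)
  have h25 := H 6 10 13 (0) (by decide) (by decide) (by decide)
    (by decide)
  have h26 := H 7 10 13 (0) (by decide) (by decide) (by decide)
    (by decide)
  have h27 := H 7 10 14 (0) (by decide) (by decide) (by decide)
    (by decide)
  have h28 := H 7 11 14 (0) (by decide) (by decide) (by decide)
    (by decide)
  have h29 := H 8 11 14 (0) (by decide) (by decide) (by decide)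
    (by decide)
  have key : (0 : ℝ) = 1 := by
    push_cast at *
    linear_combination (-1 : ℝ) * (h0 - h1 - h2 + h3 - h4 + h5 + h6 - h7 + h8 - h9 - h10 + h11 - h12 + h13 + h14 -
      h15 + h16 - h17 + h18 - h19 - h20 + h21 - h22 + h23 - h24 + h25 - h26 + h27 -
      h28 + h29)
  exact zero_ne_one key

end Q173.CG
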